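import Pool.Agent.Work.MP_3d425c_gt.Tp.Defs

/-! Tautness of a foliation in normal form. -/

namespace Pool.Agent.Work.MP_3d425c_gt.Tp
open Set Relation

variable {V : Type} {Y : Type*}

/-- `y` and `z` lie in one tetrahedron of `K`, and their heights there are related by `r`. -/
def Cmp (K : Set (Fin 4 → V)) (b : Y → V → ℝ) (ht : (Fin 4 → V) → Y → ℝ) (r : ℝ → ℝ → Prop)
    (y z : Y) : Prop :=
  ∃ x ∈ K, b y ∈ spx (range x) ∧ b z ∈ spx (range x) ∧ r (ht x y) (ht x z)

/-- Heights on a face lie between the heights of its first and last vertex; from every point a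
chain that never descends and ascends at least once leads to a translate of the point. -/
structure Taut (G : Type) [Group G] [MulAction G Y] (K : Set (Fin 4 → V)) (b : Y → V → ℝ)
    (ht : (Fin 4 → V) → Y → ℝ) : Prop where
  btw : ∀ x ∈ K, ∀ i j y z w, b y ∈ spx (x '' Icc i j) → b z ∈ spx {x i} → b w ∈ spx {x j} →
    ht x z ≤ ht x y ∧ ht x y ≤ ht x w
  loop : ∀ y, ∃ (g : G) (z w : Y), ReflTransGen (Cmp K b ht (· ≤ ·)) y z ∧
    Cmp K b ht (· < ·) z w ∧ ReflTransGen (Cmp K b ht (· ≤ ·)) w (g • y)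

end Pool.Agent.Work.MP_3d425c_gt.Tp
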