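import Pool.Agent.Work.MP_3d425c_gt.Tp.Fol
import Pool.Agent.Work.MP_3d425c_gt.Nv.Main2

/-! The theorem for the fundamental group of a triangulated space. -/

namespace Pool.Agent.Work.MP_3d425c_gt.Tp
open Set Relation Pool.Agent.Work.MP_3d425c_gt.Md

theorem main {M Y : Type*} {G V : Type} [TopologicalSpace M] [TopologicalSpace Y]
    [SimplyConnectedSpace Y] [Group G] [MulAction G Y] [MulAction G V] (p : Y → M)
    (hp : IsQuotientCoveringMap p G) (tf : ∀ a : G, a ≠ 1 → ¬ IsOfFinOrder a)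
    (cent : ∀ a : G, a ≠ 1 → IsCyclic (Subgroup.centralizer ({a} : Set G)))
    (big : ∀ E : Subgroup G, E.FG → IsCyclic E ∨ E.FiniteIndex ∨
      ∃ f : E →* Multiplicative (ℤ × ℤ), Function.Surjective f)
    (K : Set (Fin 4 → V)) (hK : Cpx G K) (hc : Cyc G K) (b : Y → V → ℝ) (hb : Bary G K b)
    (ht : (Fin 4 → V) → Y → ℝ) (hn : Normal G K b ht) (m : M) :
    Nontrivial (FundamentalGroup M m) ∧
      ∃ r : FundamentalGroup M m → FundamentalGroup M m → Prop,
        IsStrictTotalOrder _ r ∧ ∀ a b c, r a b ↔ r (c * a) (c * b) := by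
  have hs : IsSimplyConnected (⋃ x ∈ K, spx (range x)) :=
    hb.onto ▸ hb.emb.toHomeomorph.symm.toHomotopyEquiv.simplyConnectedSpace
  have fr : ∀ (g : G) (v : V), g • v = v → g = 1 := fun g v e => by
    obtain ⟨x, hx, hv⟩ := hK.all v
    obtain ⟨y, hy⟩ : dl v ∈ range b := hb.onto ▸ mem_biUnion hx (dl_mem hv)
    have : g • y = y := hb.emb.injective (funext fun w => by
      have e1 := hb.equi g y (g⁻¹ • w)
      rw [smul_inv_smul] at e1
      rw [e1, hy]
      by_cases c : w = v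
      · rw [c, inv_smul_eq_iff.2 e.symm]
      · rw [dl_ne c, dl_ne fun d => c ((inv_smul_eq_iff.1 d).trans e)])
    obtain ⟨U, hU, a⟩ := hp.disjoint y
    exact a g ⟨y, ⟨y, mem_of_mem_nhds hU, this⟩, mem_of_mem_nhds hU⟩
  obtain ⟨nt, r, hr, hinv⟩ := Nv.main2 (hK.tri hs fr) (hK.tri_cyc hs fr hc) (hK.disc hs fr)
    ⟨tf, cent⟩ big
    (exists_fol hK hs fr hb hn)
  obtain ⟨y, hy⟩ := hp.surjective m
  let φ : FundamentalGroup M m ≃* G :=
    (hp.fundamentalGroupEquiv ⟨y, hy⟩).trans (MulEquiv.inv' G).symm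
  refine ⟨φ.toEquiv.nontrivial, fun a b => r (φ a) (φ b), ?_, fun a b c => ?_⟩
  · exact
      { trichotomous := fun a b h1 h2 => φ.injective (hr.trichotomous _ _ h1 h2)
        irrefl := fun a => hr.irrefl _
        trans := fun a b c => hr.trans _ _ _ }
  · simp only [map_mul]
    exact hinv _ _ _

end Pool.Agent.Work.MP_3d425c_gt.Tp
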