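import Pool.Agent.Work.MP_3d425c_gt.Tp.Fol
import Pool.Agent.Work.MP_3d425c_gt.Tp.TDefs
import Pool.Agent.Work.MP_3d425c_gt.Ta.Vert
import Pool.Agent.Work.MP_3d425c_gt.Ta.Main

/-! The theorem for taut foliations in normal form. -/

namespace Pool.Agent.Work.MP_3d425c_gt.Tp
open Set Relation Pool.Agent.Work.MP_3d425c_gt.Md

variable {G V : Type} {Y : Type*} [Group G] [MulAction G V] [MulAction G Y] [TopologicalSpace Y]
  {K : Set (Fin 4 → V)} {b : Y → V → ℝ} {ht : (Fin 4 → V) → Y → ℝ}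

/-- `P` parametrises the edges and `φ` matches equal heights. -/
structure Par (h : Cpx G K) (b : Y → V → ℝ) (ht : (Fin 4 → V) → Y → ℝ) (φ : h.T2 → ℝ ≃o ℝ)
    (P : V → V → ℝ → Y) : Prop where
  bP : ∀ x ∈ K, ∀ i j, ∀ t ∈ Icc (0 : ℝ) 1, b (P (x i) (x j) t) = pt (x i) (x j) t
  Pg : ∀ g : G, ∀ x ∈ K, ∀ i j, ∀ t ∈ Icc (0 : ℝ) 1, P (g • x i) (g • x j) t = g • P (x i) (x j) t
  mono : ∀ x ∈ K, ∀ i j, i < j → StrictMonoOn (fun t => ht x (P (x i) (x j) t)) (Icc 0 1)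
  surj : ∀ x ∈ K, ∀ i j, SurjOn (fun t => ht x (P (x i) (x j) t)) (Icc 0 1)
    (Icc (ht x (P (x i) (x j) 0)) (ht x (P (x i) (x j) 1)))
  emb : ∀ x k a, ∀ r ∈ Icc (0 : ℝ) 1,
    ht x.1 (P ((h.d3 x k).1 0) ((h.d3 x k).1 2) (emb φ (h.d3 x k) a r)) =
      ht x.1 (P ((h.d2 (h.d3 x k) a).1 0) ((h.d2 (h.d3 x k) a).1 1) r)

theorem exists_fol2 (h : Cpx G K) (hs : IsSimplyConnected (⋃ x ∈ K, spx (range x)))
    (fr : ∀ (g : G) (v : V), g • v = v → g = 1) (hb : Bary G K b) (hn : Normal G K b ht) :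
    ∃ (φ : h.T2 → ℝ ≃o ℝ) (P : V → V → ℝ → Y), Par h b ht φ P ∧ (h.tri hs fr).Fol φ := by
  classical
  have : Nonempty Y := by
    obtain ⟨β, hβ⟩ := hs.nonempty
    obtain ⟨y, -⟩ := hb.onto ▸ hβ
    exact ⟨y⟩
  let P : V → V → ℝ → Y := fun u v t => Function.invFun b (pt u v t)
  have bP : ∀ x ∈ K, ∀ i j, ∀ t ∈ Icc (0 : ℝ) 1, b (P (x i) (x j) t) = pt (x i) (x j) t :=
    fun x hx i j t h' => Function.invFun_eq (show pt (x i) (x j) t ∈ range b from
      hb.onto ▸ mem_biUnion hx (pt_mem (mem_range_self i) (mem_range_self j) h'))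
  have P0 : ∀ u v w, P u v 0 = P u w 0 := fun u v w => by simp [P, pt]
  have P1 : ∀ u v w, P u w 1 = P v w 1 := fun u v w => by simp [P, pt]
  have P10 : ∀ u v w, P u v 1 = P v w 0 := fun u v w => by simp [P, pt]
  have Pg : ∀ g : G, ∀ x ∈ K, ∀ i j, ∀ t ∈ Icc (0 : ℝ) 1,
      P (g • x i) (g • x j) t = g • P (x i) (x j) t := fun g x hx i j t h' => by
    refine hb.emb.injective ((bP (g • x) (h.inv g x hx) i j t h').trans (funext fun w => ?_))
    rw [← smul_inv_smul g w, hb.equi, bP x hx i j t h']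
    simp [pt, dl, -smul_inv_smul]
  have mono : ∀ x ∈ K, ∀ i j, i < j → StrictMonoOn (fun t => ht x (P (x i) (x j) t)) (Icc 0 1) := by
    intro x hx i j hij s h1 t h2 e
    have ne : x j ≠ x i := fun a => hij.ne' (h.inj hx a)
    refine hn.mono x hx i j hij _ _ ?_ ?_ ?_
    · rw [bP x hx i j s h1]; exact pt_mem (by simp) (by simp) h1
    · rw [bP x hx i j t h2]; exact pt_mem (by simp) (by simp) h2
    · rw [bP x hx i j s h1, bP x hx i j t h2]
      simpa [pt, dl_self, dl_ne ne] using e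
  have surj : ∀ x ∈ K, ∀ i j, SurjOn (fun t => ht x (P (x i) (x j) t)) (Icc 0 1)
      (Icc (ht x (P (x i) (x j) 0)) (ht x (P (x i) (x j) 1))) := by
    intro x hx i j
    refine intermediate_value_Icc zero_le_one ((hn.cont x hx).comp ?_ fun t h' => ?_)
    · refine hb.emb.isInducing.continuousOn_iff.2 (ContinuousOn.congr
        (f := pt (x i) (x j)) ?_ fun t h' => bP x hx i j t h')
      unfold pt
      fun_prop
    · rw [mem_preimage, bP x hx i j t h']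
      exact pt_mem (mem_range_self i) (mem_range_self j) h'
  let pa : V → V → V → ℝ → Y := fun u v w s => if s ≤ 1 then P u v s else P v w (s - 1)
  have pam : ∀ x ∈ K, ∀ i j k, i < j → j < k →
      StrictMonoOn (fun s => ht x (pa (x i) (x j) (x k) s)) (Icc 0 (1 + 1)) := by
    intro x hx i j k h1 h2
    simp only [pa, apply_ite (ht x)]
    exact cat_mono (mono x hx i j h1) (mono x hx j k h2) (congrArg _ (P10 _ _ _))
  have pab : ∀ x ∈ K, ∀ i j k, ∀ σ : Set V, x i ∈ σ → x j ∈ σ → x k ∈ σ → ∀ s ∈ Icc (0 : ℝ) (1 + 1),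
      b (pa (x i) (x j) (x k) s) ∈ spx σ := by
    intro x hx i j k σ a1 a2 a3 s h'
    by_cases c : s ≤ 1
    · simp only [pa, if_pos c]
      rw [bP x hx i j s ⟨h'.1, c⟩]
      exact pt_mem a1 a2 ⟨h'.1, c⟩
    · have m : s - 1 ∈ Icc (0 : ℝ) 1 := ⟨by linarith [not_le.1 c], by linarith [h'.2]⟩
      simp only [pa, if_neg c]
      rw [bP x hx j k _ m]
      exact pt_mem a2 a3 m
  have two : ∀ {t : ℝ}, t ∈ Icc (0 : ℝ) 1 → 2 * t ∈ Icc (0 : ℝ) (1 + 1) := fun a =>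
    ⟨by linarith [a.1], by linarith [a.2]⟩
  have l01 : ∀ k : Fin 4, k.succAbove 0 < k.succAbove 1 := by decide
  have l12 : ∀ k : Fin 4, k.succAbove 1 < k.succAbove 2 := by decide
  have ex : ∀ f : h.T2, ∃ φ : ℝ ≃o ℝ, (∀ t, t ∉ Ioo (0 : ℝ) 1 → φ t = t) ∧
      ∀ t ∈ Icc (0 : ℝ) 1, φ t ∈ Icc (0 : ℝ) 1 ∧ ∀ x k, f = h.d3 x k →
        ht x.1 (pa (f.1 0) (f.1 1) (f.1 2) (2 * φ t)) = ht x.1 (P (f.1 0) (f.1 2) t) := by
    intro f
    obtain ⟨x, k, rfl⟩ := h.fsurj f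
    obtain ⟨φ, p1, p2⟩ := match_iso (mono x.1 x.2 _ _ ((l01 k).trans (l12 k))) (surj x.1 x.2 _ _)
      (β := fun t => ht x.1 (pa (x.1 (k.succAbove 0)) (x.1 (k.succAbove 1)) (x.1 (k.succAbove 2))
        (2 * t)))
      (fun s a t c e => pam x.1 x.2 _ _ _ (l01 k) (l12 k) (two a) (two c) (by linarith))
      (fun y hy => by
        simp only [pa, mul_zero, mul_one, zero_le_one, if_true, Nat.not_ofNat_le_one, if_false,
          show (2 : ℝ) - 1 = 1 by norm_num] at hy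
        rcases le_total y (ht x.1 (P (x.1 (k.succAbove 0)) (x.1 (k.succAbove 1)) 1)) with c | c
        · obtain ⟨t, a, e⟩ := surj x.1 x.2 _ _ ⟨hy.1, c⟩
          refine ⟨t / 2, ⟨by linarith [a.1], by linarith [a.2]⟩, ?_⟩
          simp only [pa, show 2 * (t / 2) = t by ring, if_pos a.2]
          exact e
        · obtain ⟨t, a, e⟩ := surj x.1 x.2 _ _ ⟨P10 _ _ _ ▸ c, hy.2⟩
          refine ⟨(t + 1) / 2, ⟨by linarith [a.1], by linarith [a.2]⟩, ?_⟩
          simp only [pa, show 2 * ((t + 1) / 2) = t + 1 by ring, add_sub_cancel_right]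
          split_ifs with d
          · obtain rfl : t = 0 := le_antisymm (by linarith) a.1
            rw [zero_add, P10 _ _ (x.1 (k.succAbove 2))]
            exact e
          · exact e)
      (by simp only [pa, mul_zero, zero_le_one, if_true]; exact congrArg _ (P0 _ _ _))
      (by
        simp only [pa, mul_one, Nat.not_ofNat_le_one, if_false, show (2 : ℝ) - 1 = 1 by norm_num]
        exact congrArg _ (P1 _ _ _))
    refine ⟨φ, p1, fun t a => ⟨(p2 t a).1, fun y l e => ?_⟩⟩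
    have m : ∀ i, x.1 (k.succAbove i) ∈ range x.1 ∩ range y.1 := fun i =>
      ⟨⟨_, rfl⟩, _, (congrFun (congrArg Subtype.val e) i).symm⟩
    have m1 := pab x.1 x.2 _ _ _ _ (m 0) (m 1) (m 2) _ (two (p2 t a).1)
    have m2 : b (P (x.1 (k.succAbove 0)) (x.1 (k.succAbove 2)) t) ∈ spx _ :=
      bP x.1 x.2 _ _ t a ▸ pt_mem (m 0) (m 2) a
    exact le_antisymm (hn.same _ x.2 _ y.2 _ _ m1 m2 (p2 t a).2.le)
      (hn.same _ x.2 _ y.2 _ _ m2 m1 (p2 t a).2.ge)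
  choose φ p1 p2 using ex
  refine ⟨φ, P, ⟨bP, Pg, mono, surj, fun x k a r hr => ?_⟩, ⟨p1, fun x s hs' => ?_⟩, fun g f => ?_⟩
  · have sm : ∀ t, 0 ≤ t → t ≤ 1 → (φ (h.d3 x k)).symm t ∈ Icc (0 : ℝ) 1 := fun t h0 h1 =>
      ⟨(φ _).le_symm_apply.2 (by rwa [p1 _ 0 (by simp)]),
        (φ _).symm_apply_le.2 (by rwa [p1 _ 1 (by simp)])⟩
    fin_cases a
    · have := (p2 _ _ (sm ((r + 1) / 2) (by linarith [hr.1]) (by linarith [hr.2]))).2 x k rfl
      rw [OrderIso.apply_symm_apply, show 2 * ((r + 1) / 2) = r + 1 by ring] at this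
      refine this.symm.trans (congrArg _ ?_)
      simp only [pa, add_sub_cancel_right]
      split_ifs with d
      · obtain rfl : r = 0 := le_antisymm (by linarith) hr.1
        rw [zero_add]
        exact P10 _ _ _
      · rfl
    · rfl
    · have := (p2 _ _ (sm (r / 2) (by linarith [hr.1]) (by linarith [hr.2]))).2 x k rfl
      rw [OrderIso.apply_symm_apply, show 2 * (r / 2) = r by ring] at this
      exact this.symm.trans (congrArg _ (if_pos hr.2))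
  · let Q : ℝ → ℝ := fun r => if r ≤ 1 then ht x.1 (P (x.1 0) (x.1 1) r)
      else ht x.1 (pa (x.1 1) (x.1 2) (x.1 3) (r - 1))
    have Qm : StrictMonoOn Q (Icc 0 (1 + 1 + 1)) :=
      cat_mono (mono x.1 x.2 0 1 (by decide)) (pam x.1 x.2 1 2 3 (by decide) (by decide))
        (by simp only [pa, zero_le_one, if_true]; exact congrArg _ (P10 _ _ _))
    have r0 : ∀ t ∈ Icc (0 : ℝ) 1, ht x.1 (pa (x.1 1) (x.1 2) (x.1 3) (2 * φ (h.d3 x 0) t)) =
      ht x.1 (P (x.1 1) (x.1 3) t) := fun t a => (p2 _ t a).2 x 0 rfl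
    have r1 : ht x.1 (pa (x.1 0) (x.1 2) (x.1 3) (2 * φ (h.d3 x 1) s)) =
      ht x.1 (P (x.1 0) (x.1 3) s) := (p2 _ s hs').2 x 1 rfl
    have r2 : ht x.1 (pa (x.1 0) (x.1 1) (x.1 3) (2 * φ (h.d3 x 2) s)) =
      ht x.1 (P (x.1 0) (x.1 3) s) := (p2 _ s hs').2 x 2 rfl
    have r3 : ∀ t ∈ Icc (0 : ℝ) 1, ht x.1 (pa (x.1 0) (x.1 1) (x.1 2) (2 * φ (h.d3 x 3) t)) =
      ht x.1 (P (x.1 0) (x.1 2) t) := fun t a => (p2 _ t a).2 x 3 rfl
    have n1 := two (p2 (h.d3 x 1) s hs').1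
    have n2 := two (p2 (h.d3 x 2) s hs').1
    show (if 2 * φ (h.d3 x 2) s ≤ 1 then 2 * φ (h.d3 x 2) s
      else 1 + 2 * φ (h.d3 x 0) (2 * φ (h.d3 x 2) s - 1)) =
      if 2 * φ (h.d3 x 1) s ≤ 1 then 2 * φ (h.d3 x 3) (2 * φ (h.d3 x 1) s)
      else 2 * φ (h.d3 x 1) s + 1
    generalize 2 * φ (h.d3 x 2) s = u at *
    generalize 2 * φ (h.d3 x 1) s = w at *
    have L : ∀ r, r = (if u ≤ 1 then u else 1 + 2 * φ (h.d3 x 0) (u - 1)) →
        r ∈ Icc (0 : ℝ) (1 + 1 + 1) ∧ Q r = ht x.1 (P (x.1 0) (x.1 3) s) := by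
      intro r hr
      by_cases c : u ≤ 1
      · rw [if_pos c] at hr
        subst hr
        simp only [pa, if_pos c] at r2
        exact ⟨⟨n2.1, by linarith⟩, (if_pos c).trans r2⟩
      · rw [if_neg c] at hr
        have m : u - 1 ∈ Ioc (0 : ℝ) 1 := ⟨by linarith [not_le.1 c], by linarith [n2.2]⟩
        have m' := two (p2 (h.d3 x 0) _ (Ioc_subset_Icc_self m)).1
        have : 0 < φ (h.d3 x 0) (u - 1) :=
          (p1 _ 0 (by simp)).symm.trans_lt ((φ _).strictMono m.1)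
        simp only [pa, if_neg c] at r2
        refine ⟨⟨by linarith [m'.1], by linarith [m'.2]⟩, (if_neg (by linarith)).trans ?_⟩
        rw [hr, add_sub_cancel_left, r0 _ (Ioc_subset_Icc_self m), r2]
    have R : ∀ r, r = (if w ≤ 1 then 2 * φ (h.d3 x 3) w else w + 1) →
        r ∈ Icc (0 : ℝ) (1 + 1 + 1) ∧ Q r = ht x.1 (P (x.1 0) (x.1 3) s) := by
      intro r hr
      by_cases c : w ≤ 1
      · rw [if_pos c] at hr
        have m' := two (p2 (h.d3 x 3) _ ⟨n1.1, c⟩).1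
        have := r3 w ⟨n1.1, c⟩
        rw [← hr] at m' this
        simp only [pa, if_pos c] at r1
        refine ⟨⟨m'.1, by linarith [m'.2]⟩, Eq.trans ?_ (this.trans r1)⟩
        simp only [Q, pa, apply_ite (ht x.1), if_pos (show r - 1 ≤ 1 by linarith [m'.2])]
      · rw [if_neg c] at hr
        simp only [pa, if_neg c] at r1
        refine ⟨⟨by linarith [n1.1], by linarith [n1.2]⟩,
          (if_neg (by linarith [not_le.1 c])).trans ?_⟩
        simp only [hr, add_sub_cancel_right, pa, if_neg c, r1]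
    exact Qm.injOn (L _ rfl).1 (R _ rfl).1 ((L _ rfl).2.trans (R _ rfl).2.symm)
  · ext t
    by_cases c : t ∈ Ioo (0 : ℝ) 1
    swap
    · rw [p1 _ t c, p1 _ t c]
    have a := Ioo_subset_Icc_self c
    obtain ⟨x, k, rfl⟩ := h.fsurj f
    obtain ⟨q1, q2⟩ := p2 (h.d3 x k) t a
    obtain ⟨q3, q4⟩ := p2 (g • h.d3 x k) t a
    have m1 := pab x.1 x.2 (k.succAbove 0) (k.succAbove 1) (k.succAbove 2) (range x.1) ⟨_, rfl⟩
      ⟨_, rfl⟩ ⟨_, rfl⟩ _ (two q1)
    have m2 : b (P (x.1 (k.succAbove 0)) (x.1 (k.succAbove 2)) t) ∈ spx (range x.1) :=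
      bP x.1 x.2 _ _ t a ▸ pt_mem (mem_range_self _) (mem_range_self _) a
    have e := le_antisymm (hn.inv g _ x.2 _ _ m1 m2 (q2 x k rfl).le)
      (hn.inv g _ x.2 _ _ m2 m1 (q2 x k rfl).ge)
    have pg : ∀ s ∈ Icc (0 : ℝ) (1 + 1), g • pa (x.1 (k.succAbove 0)) (x.1 (k.succAbove 1))
        (x.1 (k.succAbove 2)) s = pa (g • x.1 (k.succAbove 0)) (g • x.1 (k.succAbove 1))
        (g • x.1 (k.succAbove 2)) s := fun s h' => by
      by_cases d : s ≤ 1
      · simp only [pa, if_pos d, Pg g x.1 x.2 _ _ s ⟨h'.1, d⟩]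
      · simp only [pa, if_neg d,
          Pg g x.1 x.2 _ _ (s - 1) ⟨by linarith [not_le.1 d], by linarith [h'.2]⟩]
    rw [pg _ (two q1), ← Pg g x.1 x.2 _ _ t a] at e
    have := (pam (g • x.1) (h.inv g _ x.2) _ _ _ (l01 k) (l12 k)).injOn (two q3) (two q1)
      ((q4 (g • x) k rfl).trans e.symm)
    linarith

theorem mid (h : Cpx G K) (hs : IsSimplyConnected (⋃ x ∈ K, spx (range x)))
    (fr : ∀ (g : G) (v : V), g • v = v → g = 1) (v : V) :
    ∃ f, (h.tri hs fr).d1 ((h.tri hs fr).d2 f 2) 0 = v := by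
  have ne : ∀ {σ : Set V} {β}, β ∈ spx σ → σ.Nonempty := fun {σ β} a => by
    refine nonempty_iff_ne_empty.2 fun e => ?_
    have := a.2.2
    rw [show β = 0 from Function.support_eq_empty_iff.1 (subset_empty_iff.1 (e ▸ a.2.1))] at this
    simp at this
  obtain ⟨β, hβ⟩ := (h.upper v).nonempty
  obtain ⟨γ, hγ⟩ := (h.lower v).nonempty
  simp only [mem_iUnion] at hβ hγ
  obtain ⟨x, hx, i, rfl, a⟩ := hβ
  obtain ⟨y, hy, j, e, c⟩ := hγ
  obtain ⟨_, i', hi, -⟩ := ne a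
  obtain ⟨_, j', hj, -⟩ := ne c
  have e : y j = x i := e
  have m : ∀ z ∈ K, ∀ k : Fin 4, k ≠ 0 → k ≠ 3 →
      ∃ f, (h.tri hs fr).d1 ((h.tri hs fr).d2 f 2) 0 = z k := fun z hz k h0 h3 => by
    fin_cases k
    exacts [absurd rfl h0, ⟨h.d3 ⟨z, hz⟩ 2, rfl⟩, ⟨h.d3 ⟨z, hz⟩ 1, rfl⟩, absurd rfl h3]
  by_cases i0 : i = 0
  · by_cases j3 : j = 3
    · subst i0 j3
      exact (h.tri hs fr).mid_of _ ⟨h.d3 ⟨x, hx⟩ 1, rfl⟩ ⟨h.d3 ⟨y, hy⟩ 1, e⟩
    · exact e ▸ m y hy j (fun k => by simp [k] at hj) j3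
  · exact m x hx i i0 fun k => absurd (k.symm.trans_lt hi) (not_lt.2 (Fin.le_last i'))

theorem taut (h : Cpx G K) (hs : IsSimplyConnected (⋃ x ∈ K, spx (range x)))
    (fr : ∀ (g : G) (v : V), g • v = v → g = 1) (hb : Bary G K b) (hn : Normal G K b ht)
    (hT : Taut G K b ht) {φ : h.T2 → ℝ ≃o ℝ} {P : V → V → ℝ → Y} (hP : Par h b ht φ P)
    (hf : (h.tri hs fr).Flat φ) : (h.tri hs fr).Taut φ := by
  classical
  set T := h.tri hs fr with hTr
  have z1 : (0 : ℝ) ∈ Icc (0 : ℝ) 1 := ⟨le_rfl, zero_le_one⟩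
  have o1 : (1 : ℝ) ∈ Icc (0 : ℝ) 1 := ⟨zero_le_one, le_rfl⟩
  have b0 : ∀ x ∈ K, ∀ i j, b (P (x i) (x j) 0) = dl (x i) := fun x hx i j => by
    simp [hP.bP x hx i j 0 z1, pt]
  have b1 : ∀ x ∈ K, ∀ i j, b (P (x i) (x j) 1) = dl (x j) := fun x hx i j => by
    simp [hP.bP x hx i j 1 o1, pt]
  have lev : ∀ x ∈ K, ∀ i j y, b y ∈ spx (x '' Icc i j) →
      ∃ s ∈ Icc (0 : ℝ) 1, ht x (P (x i) (x j) s) = ht x y := fun x hx i j y hy =>
    hP.surj x hx i j (hT.btw x hx i j y _ _ hy (b0 x hx i j ▸ dl_mem rfl)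
      (b1 x hx i j ▸ dl_mem rfl))
  have pm : ∀ (x : h.T3) k, ∀ t ∈ Icc (0 : ℝ) 1, T.pos φ x k t ∈ Icc (0 : ℝ) 1 ∧
      ht x.1 (P (x.1 0) (x.1 3) (T.pos φ x k t)) =
        ht x.1 (P ((h.d3 x k).1 0) ((h.d3 x k).1 2) t) := fun x k t a => by
    fin_cases k
    exacts [⟨hf.smem' _ (by linarith [a.1]) (by linarith [a.2]), hP.emb x 2 0 t a⟩, ⟨a, rfl⟩,
      ⟨a, rfl⟩, ⟨hf.smem' _ (by linarith [a.1]) (by linarith [a.2]), hP.emb x 1 2 t a⟩]
  let Good : Y → h.T3 × ℝ → Prop := fun y p => ∀ x : h.T3, b y ∈ spx (range x.1) →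
    ∀ s ∈ Icc (0 : ℝ) 1, ht x.1 (P (x.1 0) (x.1 3) s) = ht x.1 y → T.At φ x s p
  have inj : ∀ x : h.T3, InjOn (fun t => ht x.1 (P (x.1 0) (x.1 3) t)) (Icc 0 1) := fun x =>
    (hP.mono x.1 x.2 0 3 (by decide)).injOn
  have vx : ∀ v, ∃ p, ∀ (x : h.T3) m y, x.1 m = v → b y = dl v → ∀ s ∈ Icc (0 : ℝ) 1,
      ht x.1 (P (x.1 0) (x.1 3) s) = ht x.1 y → T.At φ x s p := fun v => by
    obtain ⟨f, e⟩ := mid h hs fr v
    obtain ⟨z, k, rfl⟩ := T.face_surj f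
    have on : T.On φ v _ := ⟨z, k, e, .refl _⟩
    refine ⟨(z, T.pos φ z k (mark φ (T.d3 z k))), fun x m y hm hy s a c => ?_⟩
    subst hm
    fin_cases m
    · exact .inr (.inl ⟨inj x a z1 (c.trans (congrArg _ (hb.emb.injective
        (hy.trans (b0 _ x.2 0 3).symm)))), on⟩)
    · obtain rfl := inj x a (Ioo_subset_Icc_self (hf.mk_mem (h.d3 x 2)))
        (c.trans ((congrArg _ (hb.emb.injective (hy.trans (b1 _ x.2 0 1).symm))).trans
          (hP.emb x 2 2 1 o1).symm))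
      exact .inl ⟨hf.mk_mem _, on.lf hf (y := x) (k := 2) rfl⟩
    · obtain rfl := inj x a (Ioo_subset_Icc_self (hf.mk_mem (h.d3 x 1)))
        (c.trans ((congrArg _ (hb.emb.injective (hy.trans (b1 _ x.2 0 2).symm))).trans
          (hP.emb x 1 2 1 o1).symm))
      exact .inl ⟨hf.mk_mem _, on.lf hf (y := x) (k := 1) rfl⟩
    · exact .inr (.inr ⟨inj x a o1 (c.trans (congrArg _ (hb.emb.injective
        (hy.trans (b1 _ x.2 0 3).symm)))), on⟩)
  have ed : ∀ (x : h.T3) i j, i < j → ∃ k a, ∀ t, (h.d2 (h.d3 x k) a).1 t = ![x.1 i, x.1 j] t :=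
    fun x i j hij => by
      obtain ⟨k, a, e0, e1⟩ := (by decide : ∀ i j : Fin 4, i < j → ∃ (k : Fin 4) (a : Fin 3),
        k.succAbove (a.succAbove 0) = i ∧ k.succAbove (a.succAbove 1) = j) i j hij
      exact ⟨k, a, fun t => by
        fin_cases t
        exacts [congrArg x.1 e0, congrArg x.1 e1]⟩
  have key : ∀ y, ∃ p, Good y p := fun y => by
    obtain ⟨x, hx, hy⟩ : ∃ x ∈ K, b y ∈ spx (range x) := by
      simpa only [mem_iUnion, exists_prop] using (hb.onto ▸ mem_range_self y :)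
    have ne : (Finset.univ.filter fun i => b y (x i) ≠ 0).Nonempty := by
      by_contra c
      have := hy.2.2
      rw [show b y = 0 from funext fun v => by_contra fun d => by
        obtain ⟨i, rfl⟩ := hy.2.1 d
        exact c ⟨i, by simpa using d⟩] at this
      simp at this
    obtain ⟨i, hi, mi⟩ := Finset.exists_min_image _ id ne
    obtain ⟨j, hj, mj⟩ := Finset.exists_max_image _ id ne
    simp only [Finset.mem_filter, Finset.mem_univ, true_and, id] at hi hj mi mj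
    obtain ⟨r, hr, e⟩ := lev x hx i j y ⟨hy.1, fun v d => by
      obtain ⟨k, rfl⟩ := hy.2.1 d
      exact ⟨k, ⟨mi k d, mj k d⟩, rfl⟩, hy.2.2⟩
    have sm : ∀ x' : h.T3, b y ∈ spx (range x'.1) → ht x'.1 y = ht x'.1 (P (x i) (x j) r) :=
      fun x' c => by
        have m1 : b y ∈ spx (range x ∩ range x'.1) := ⟨hy.1, subset_inter hy.2.1 c.2.1, hy.2.2⟩
        have m2 : b (P (x i) (x j) r) ∈ spx (range x ∩ range x'.1) := hP.bP x hx i j r hr ▸
          pt_mem (mem_inter (mem_range_self _) (c.2.1 hi))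
            (mem_inter (mem_range_self _) (c.2.1 hj)) hr
        exact le_antisymm (hn.same _ hx _ x'.2 _ _ m1 m2 e.ge) (hn.same _ hx _ x'.2 _ _ m2 m1 e.le)
    have vc : ∀ k, b y (x k) ≠ 0 → b (P (x i) (x j) r) = dl (x k) → ∃ p, Good y p :=
      fun k hk d => by
        obtain ⟨p, hp⟩ := vx (x k)
        refine ⟨p, fun x' c s a q => ?_⟩
        obtain ⟨m, hm⟩ := c.2.1 hk
        exact hp x' m _ hm d s a (q.trans (sm x' c))
    rcases (mi j hj).eq_or_lt with rfl | ij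
    · exact vc i hi (by simp [hP.bP x hx i i r hr, pt, ← add_smul])
    rcases hr.1.eq_or_lt with rfl | r0
    · exact vc i hi (b0 x hx i j)
    rcases hr.2.eq_or_lt with rfl | r1
    · exact vc j hj (b1 x hx i j)
    obtain ⟨k, a, e1⟩ := ed ⟨x, hx⟩ i j ij
    refine ⟨(⟨x, hx⟩, T.pos φ ⟨x, hx⟩ k (Md.emb φ (T.d3 ⟨x, hx⟩ k) a r)), fun x' c s hs' q => ?_⟩
    obtain ⟨i', ei⟩ := c.2.1 hi
    obtain ⟨j', ej⟩ := c.2.1 hj
    obtain ⟨k', a', e2⟩ := ed x' i' j' (h.ord x hx _ x'.2 i j i' j' ij ei.symm ej.symm)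
    have m := hf.emb_mem (T.d3 x' k') a' ⟨r0, r1⟩
    have m' := pm x' k' _ (Ioo_subset_Icc_self m)
    obtain rfl := inj x' hs' m'.1 (q.trans ((sm x' c).trans (Eq.symm (m'.2.trans
      ((hP.emb x' k' a' r hr).trans (by rw [e2, e2, ei, ej]; rfl))))))
    exact .inl ⟨hf.pos_mem _ _ m, hf.lf_edge (Subtype.ext (funext fun t => (e2 t).trans
      (by rw [ei, ej]; exact (e1 t).symm))) ⟨r0, r1⟩⟩
  have rg : ∀ x : Fin 4 → V, x '' Icc 0 3 = range x := fun x => by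
    rw [← image_univ, show Icc (0 : Fin 4) 3 = univ from
      eq_univ_of_forall fun i => ⟨Fin.zero_le i, Fin.le_last i⟩]
  have lt : ∀ y z p q, Cmp K b ht (· < ·) y z → Good y p → Good z q →
      TransGen (T.Rise φ) p q := by
    rintro y z p q ⟨x, hx, a, c, e⟩ hp hq
    obtain ⟨s, s1, s2⟩ := lev x hx 0 3 y (rg x ▸ a)
    obtain ⟨t, t1, t2⟩ := lev x hx 0 3 z (rg x ▸ c)
    exact (hp ⟨x, hx⟩ a s s1 s2).rise hf (mid h hs fr) (hq ⟨x, hx⟩ c t t1 t2)
      (((hP.mono x hx 0 3 (by decide)).lt_iff_lt s1 t1).1 (s2.trans_lt (e.trans_eq t2.symm)))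
  have le : ∀ y z p q, Cmp K b ht (· ≤ ·) y z → Good y p → Good z q →
      T.Lf φ p q ∨ TransGen (T.Rise φ) p q := by
    rintro y z p q ⟨x, hx, a, c, e⟩ hp hq
    rcases e.eq_or_lt with e | e
    · obtain ⟨s, s1, s2⟩ := lev x hx 0 3 y (rg x ▸ a)
      exact .inl ((hp ⟨x, hx⟩ a s s1 s2).lf hf (hq ⟨x, hx⟩ c s s1 (s2.trans e)))
    · exact .inr (lt y z p q ⟨x, hx, a, c, e⟩ hp hq)
  choose R hR using key
  have ch : ∀ y z, ReflTransGen (Cmp K b ht (· ≤ ·)) y z →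
      T.Lf φ (R y) (R z) ∨ TransGen (T.Rise φ) (R y) (R z) := fun y z a => by
    induction a with
    | refl => exact .inl (.refl _)
    | tail _ c ih =>
      rcases ih with i | i <;> rcases le _ _ _ _ c (hR _) (hR _) with j | j
      exacts [.inl (i.trans j), .inr (rise_left i j), .inr (rise_right i j), .inr (i.trans j)]
  have lf : ∀ x : h.T3, ∀ s ∈ Ioo (0 : ℝ) 1, T.Lf φ (x, s) (R (P (x.1 0) (x.1 3) s)) :=
    fun x s a => Tri.At.lf hf (.inl ⟨a, .refl _⟩) (hR _ x (hP.bP _ x.2 0 3 s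
      (Ioo_subset_Icc_self a) ▸ pt_mem (mem_range_self _) (mem_range_self _)
        (Ioo_subset_Icc_self a)) s (Ioo_subset_Icc_self a) rfl)
  intro x s a
  obtain ⟨g, z, w, c1, c2, c3⟩ := hT.loop (P (x.1 0) (x.1 3) s)
  rw [← hP.Pg g _ x.2 0 3 s (Ioo_subset_Icc_self a)] at c3
  have d := lt _ _ _ _ c2 (hR _) (hR _)
  refine ⟨g, rise_left (lf x s a) (rise_right ?_ (lf (g • x) s a).symm)⟩
  rcases ch _ _ c1 with i | i <;> rcases ch _ _ c3 with j | j
  exacts [rise_left i (rise_right d j), rise_left i (d.trans j), i.trans (rise_right d j),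
    i.trans (d.trans j)]

theorem main_taut {M Y : Type*} {G V : Type} [TopologicalSpace M] [TopologicalSpace Y]
    [SimplyConnectedSpace Y] [Group G] [MulAction G Y] [MulAction G V] (p : Y → M)
    (hp : IsQuotientCoveringMap p G) (tf : ∀ a : G, a ≠ 1 → ¬ IsOfFinOrder a)
    (cent : ∀ a : G, a ≠ 1 → IsCyclic (Subgroup.centralizer ({a} : Set G)))
    (big : ∀ E : Subgroup G, E.FG → IsCyclic E ∨ E.FiniteIndex ∨
      ∃ f : E →* Multiplicative (ℤ × ℤ), Function.Surjective f)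
    (K : Set (Fin 4 → V)) (hK : Cpx G K) (b : Y → V → ℝ) (hb : Bary G K b)
    (ht : (Fin 4 → V) → Y → ℝ) (hn : Normal G K b ht) (hT : Taut G K b ht) (m : M) :
    Nontrivial (FundamentalGroup M m) ∧
      ∃ r : FundamentalGroup M m → FundamentalGroup M m → Prop,
        IsStrictTotalOrder _ r ∧ ∀ a b c, r a b ↔ r (c * a) (c * b) := by
  have hs : IsSimplyConnected (⋃ x ∈ K, spx (range x)) :=
    hb.onto ▸ hb.emb.toHomeomorph.symm.toHomotopyEquiv.simplyConnectedSpace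
  have fr : ∀ (g : G) (v : V), g • v = v → g = 1 := fun g v e => by
    obtain ⟨x, hx, hv⟩ := hK.all v
    obtain ⟨y, hy⟩ : dl v ∈ range b := hb.onto ▸ mem_biUnion hx (dl_mem hv)
    have : g • y = y := hb.emb.injective (funext fun w => by
      have e1 := hb.equi g y (g⁻¹ • w)
      rw [smul_inv_smul] at e1
      rw [e1, hy]
      by_cases c : w = v
      · rw [c, inv_smul_eq_iff.2 e.symm]
      · rw [dl_ne c, dl_ne fun d => c ((inv_smul_eq_iff.1 d).trans e)])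
    obtain ⟨U, hU, a⟩ := hp.disjoint y
    exact a g ⟨y, ⟨y, mem_of_mem_nhds hU, this⟩, mem_of_mem_nhds hU⟩
  obtain ⟨ψ, P, hP, hf⟩ := exists_fol2 hK hs fr hb hn
  obtain ⟨nt, r, hr, hinv⟩ := (hK.tri hs fr).main_taut ⟨tf, cent⟩ big (hK.disc hs fr)
    (mid hK hs fr) ψ hf (taut hK hs fr hb hn hT hP hf.1)
  obtain ⟨y, hy⟩ := hp.surjective m
  let φ : FundamentalGroup M m ≃* G :=
    (hp.fundamentalGroupEquiv ⟨y, hy⟩).trans (MulEquiv.inv' G).symm
  refine ⟨φ.toEquiv.nontrivial, fun a b => r (φ a) (φ b), ?_, fun a b c => ?_⟩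
  · exact
      { trichotomous := fun a b h1 h2 => φ.injective (hr.trichotomous _ _ h1 h2)
        irrefl := fun a => hr.irrefl _
        trans := fun a b c => hr.trans _ _ _ }
  · simp only [map_mul]
    exact hinv _ _ _

end Pool.Agent.Work.MP_3d425c_gt.Tp
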